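import Pool.Agent.MP_ee8c61_ag.N3.Mod
import Pool.Agent.MP_ee8c61_ag.N3Nm.Norm

/-! The base ring is finitely generated. -/

namespace Pool.Agent.MP_ee8c61_ag.N3

open M3

variable [Base]

theorem rb_gen (N : ℕ) : ∃ (m : ℕ) (j : MvPolynomial (Fin m) ℂ →ₐ[ℂ] KK N),
    ∀ g, g ∈ j.range ↔ g ∈ Rb N := by
  let A : Subalgebra ℂ (KK N) := Algebra.adjoin ℂ (Set.range (xx N) ∪ Set.range (x0 N))
  have hp : ∀ p, M3.ip N p ∈ A := fun p => by
    induction p using MvPolynomial.induction_on with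
    | C c => exact (M3.ip N).commutes c ▸ A.algebraMap_mem c
    | add p q hp hq => rw [map_add]; exact add_mem hp hq
    | mul_X p l hp => rw [map_mul]; exact mul_mem hp (Algebra.subset_adjoin (Or.inr ⟨l, rfl⟩))
  obtain ⟨m, j, hj⟩ := N3Nm.norm_fg A
    (Subalgebra.fg_def.2 ⟨_, (Set.finite_range _).union (Set.finite_range _), rfl⟩) fun g => by
      obtain ⟨p, q, hq, rfl⟩ := IsFractionRing.div_surjective (A := M3.Po N) g
      have h : M3.ip N q ≠ 0 := IsFractionRing.to_map_ne_zero_of_mem_nonZeroDivisors hq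
      exact ⟨_, hp q, h, (mul_div_cancel₀ _ h).symm ▸ hp p⟩
  refine ⟨m, j, fun g => (hj g).trans ⟨fun h => mem_Rb.2 fun V hV => h V fun a ha => ?_,
    fun h V hV => h V (fun c => hV _ (A.algebraMap_mem c)) fun l =>
      hV _ (Algebra.subset_adjoin (Or.inl ⟨l, rfl⟩))⟩⟩
  have : A ≤ Rb N := Algebra.adjoin_le (by
    rintro _ (⟨l, rfl⟩ | ⟨l, rfl⟩)
    exacts [(xp N l).2, (pp N _).2])
  exact hV ⟨a, this ha⟩

/-- Finitely many generators. -/
theorem po_gen (N : ℕ) : ∃ (m : ℕ) (y : Fin m → Po N), ∀ (p : Po N) (S : KK N → Prop),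
    (∀ c, S (algebraMap ℂ _ c)) → (∀ a b, S a → S b → S (a + b)) →
    (∀ a i, S a → S (a * ip N (y i))) → S (ip N p) := by
  obtain ⟨m, j, hj⟩ := rb_gen N
  refine ⟨m, fun i => ⟨j (MvPolynomial.X i), (hj _).1 ⟨_, rfl⟩⟩, fun p S h1 h2 h3 => ?_⟩
  obtain ⟨q, hq⟩ := (hj p).2 p.2
  have : S (j q) := by
    clear hq
    induction q using MvPolynomial.induction_on with
    | C c => exact j.commutes c ▸ h1 c
    | add p q hp hq => rw [map_add]; exact h2 _ _ hp hq
    | mul_X p l hp => rw [map_mul]; exact h3 _ l hp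
  exact (show j q = ip N p from hq) ▸ this

theorem rb_fg (N : ℕ) : (Rb N).FG := by
  obtain ⟨m, j, hj⟩ := rb_gen N
  rw [← show j.range = Rb N from SetLike.ext hj, ← Algebra.map_top]
  exact Algebra.FiniteType.out.map j

instance (N : ℕ) : Algebra.FiniteType ℂ (Po N) := (Subalgebra.fg_iff_finiteType _).1 (rb_fg N)

instance (N : ℕ) : IsNoetherianRing (Po N) := Algebra.FiniteType.isNoetherianRing ℂ _

end Pool.Agent.MP_ee8c61_ag.N3
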