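import Pool.Agent.MP_ee8c61_ag.N3FG.SpecB
import Pool.Agent.MP_ee8c61_ag.N3FG.Rb

/-!
Finite generation on the box from finite generation on its faces.
-/

namespace Pool.Agent.MP_ee8c61_ag.N3.M3FG

open Pool.Agent.MP_ee8c61_ag.M3 Pool.Agent.MP_ee8c61_ag.M3FG

set_option linter.unusedSectionVars false

variable [Base]

open M3 M3E Finset

namespace RBOX

variable {N : ℕ} {f : Po N} {M : Mod N}

theorem poly_of {g : KK N} (h : ∀ V : Vl N, Ov V → g ∈ V) : ∃ p, ip N p = g :=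
  ⟨⟨g, mem_Rb.2 h⟩, rfl⟩

theorem ip_mem (hH : ∀ c g, g ∈ M.H c ↔
    (∃ (r : ℕ) (p : Po N), ip N f ^ r * g = ip N p) ∧ ∀ j, g ∈ (M.v j).F (-c j))
    (b : Bas f M) (p : Po N) {c : M.J → ℤ} (hc : 0 ≤ c) : ip N p ∈ M.H c :=
  (hH _ _).2 ⟨⟨0, p, by simp⟩, fun j =>
    (M.v j).F_anti (by have : (0 : ℤ) ≤ c j := hc j; omega) (b.ov_v j p)⟩

/-- The generators that every system contains. -/
structure Std (f : Po N) (M : Mod N) (G : Set ((M.J → ℤ) × KK N)) : Prop where
  ok : M.OK f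
  bas : Bas f M
  sh : ∀ c g, g ∈ M.H c ↔
    (∃ (r : ℕ) (p : Po N), ip N f ^ r * g = ip N p) ∧ ∀ j, g ∈ (M.v j).F (-c j)
  mem : ∀ p ∈ G, p.2 ∈ M.H p.1
  g1 : ∀ j, (M.e j, 1) ∈ G
  g2 : (-M.aa, ip N f) ∈ G
  g3 : (M.aa, (ip N f)⁻¹) ∈ G
  poly : ∀ p, Sp G 0 (ip N p)

variable {G : Set ((M.J → ℤ) × KK N)}

theorem Std.toH (s : Std f M G) {d : M.J → ℤ} {u : KK N} (h : Sp G d u) : u ∈ M.H d :=
  h.mem (P := fun d u => u ∈ M.H d)
    (fun z => by
      have := ip_mem s.sh s.bas (algebraMap ℂ _ z) le_rfl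
      rwa [AlgHom.commutes] at this)
    s.mem (fun d _ _ b _ => by rw [zero_mul]; exact zero_mem _)
    (fun _ _ _ h1 h2 V hV => s.bas.oc_add _ _ _ _ (h1 V hV) (h2 V hV))
    fun _ _ _ _ h1 h2 V hV => s.bas.oc_mul _ _ _ _ _ (h1 V hV) (h2 V hV)

theorem Std.mono (s : Std f M G) {d d' : M.J → ℤ} {u : KK N} (h : Sp G d u) (hd : d ≤ d') :
    Sp G d' u := by
  refine (h.mul (Sp.monom (fun j => Sp.gen (s.g1 j)) fun j => (d' j - d j).toNat)).cast ?_ (by simp)
  funext i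
  have : d i ≤ d' i := hd i
  simp only [Pi.add_apply, Finset.sum_apply, Pi.smul_apply, M.e_apply, smul_ite, smul_zero]
  rw [Finset.sum_ite_eq]
  simp only [mem_univ, if_true, nsmul_eq_mul, mul_one]
  omega

theorem Std.f_ne (s : Std f M G) : ip N f ≠ 0 := by
  obtain ⟨b, -⟩ := s.ok.cov ⊤ fun _ => ValuationSubring.mem_top _
  obtain ⟨U, -, e⟩ := s.ok.ord b
  rw [e]
  exact mul_ne_zero U.ne_zero (M.mon_ne _ _)

theorem Std.fz (s : Std f M G) (ρ : ℤ) : Sp G (ρ • M.aa) (ip N f ^ (-ρ)) := by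
  obtain ⟨n, rfl | rfl⟩ := ρ.eq_nat_or_neg
  · exact ((Sp.gen s.g3).pow n).cast (by simp) (by simp)
  · exact ((Sp.gen s.g2).pow n).cast (by simp) (by simp)

theorem Std.base (s : Std f M G) (ρ : ℤ) {g : KK N} (hg : g ∈ M.H (ρ • M.aa)) :
    Sp G (ρ • M.aa) g := by
  obtain ⟨p, hp⟩ : ∃ p, ip N p = g * ip N f ^ (-(-ρ)) := poly_of fun V hV => by
    obtain ⟨b, hb⟩ := s.ok.cov V hV
    have := s.bas.oc_mul _ _ _ _ _ (hg V hV) (s.toH (s.fz (-ρ)) V hV) b hb
    rwa [neg_smul, add_neg_cancel, s.bas.mon_zero, mul_one] at this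
  refine ((s.poly p).mul (s.fz ρ)).cast (zero_add _) ?_
  rw [hp, mul_assoc, ← zpow_add₀ s.f_ne]
  simp

theorem lower (hM : M.OK f) (A : M.J → ℚ) (m : ℚ) (K : ℤ) : ∃ l : M.J → ℤ, ∀ c r β,
    Adj M A c m r β → ¬c ≤ K • M.aa → l ≤ c := by
  let x : M.J → ℚ := fun j => m * (M.k j + A j)
  let R : ℚ := K - ∑ j, |x j + m|
  refine ⟨fun j => ⌊x j + R * M.a j⌋, fun c r β h hc j => ?_⟩
  have e : ∀ j, (c j : ℚ) = x j + β j + r * M.a j := fun j => by
    simpa [Mod.kk, Mod.aa, x, mul_add] using congrFun h.2.2 j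
  have ha : ∀ j, (1 : ℚ) ≤ M.a j := fun j => by exact_mod_cast hM.pos j
  obtain ⟨i, hi⟩ := not_forall.1 hc
  have hi' : (K : ℚ) * M.a i < c i := by
    have : K * (M.a i : ℤ) < c i := not_le.1 hi
    exact_mod_cast this
  have h1 : |x i + m| ≤ ∑ j, |x j + m| :=
    single_le_sum (f := fun j => |x j + m|) (fun j _ => abs_nonneg _) (mem_univ i)
  have h2 : R ≤ r := by
    by_contra hc
    have a1 := mul_lt_mul_of_pos_right (not_le.1 hc) (lt_of_lt_of_le one_pos (ha i))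
    have a2 := mul_le_mul_of_nonneg_left (ha i) ((abs_nonneg _).trans h1)
    have a3 := le_abs_self (x i + m)
    have a4 := (h.2.1 i).2
    have a5 := e i
    simp only [R] at a1
    nlinarith
  have h3 := mul_le_mul_of_nonneg_right h2 (zero_le_one.trans (ha j))
  have h4 := (h.2.1 j).1
  have h5 := h.1
  have h6 := e j
  exact Int.cast_le (R := ℚ) |>.1 ((Int.floor_le _).trans (by linarith))

theorem Std.desc (s : Std f M G) {A : M.J → ℚ}
    (hR : ∀ o c m r β, Adj M A c m r β → β o = m → ∀ g ∈ M.H c, SpM (M.v o) (ev M o) G c g)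
    {m : ℚ} (hm : 2 ≤ m) {c : M.J → ℤ} {r : ℚ} {β : M.J → ℚ} (h : Adj M A c m r β) :
    ∀ g ∈ M.H c, Sp G c g := by
  have ha : ∀ j, (0 : ℚ) < M.a j := fun j => by exact_mod_cast s.ok.pos j
  obtain ⟨K, hK⟩ : ∃ K : ℤ, K • M.aa ≤ c := by
    refine ⟨-∑ j, |c j|, fun j => ?_⟩
    have h1 : |c j| ≤ ∑ j, |c j| :=
      single_le_sum (f := fun j => |c j|) (fun j _ => abs_nonneg _) (mem_univ j)
    have h2 : (1 : ℤ) ≤ M.a j := by exact_mod_cast s.ok.pos j
    have h3 := mul_le_mul_of_nonneg_left h2 ((abs_nonneg _).trans h1)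
    have h4 := neg_abs_le (c j)
    change (-∑ j, |c j|) * (M.a j : ℤ) ≤ c j
    linarith
  obtain ⟨l, hl⟩ := lower s.ok A m K
  have key : ∀ (n : ℕ) c' r β, c' ≤ c → Adj M A c' m r β → ∑ j, (c' j - l j) < n →
      ∀ g ∈ M.H c', Sp G c g := by
    intro n
    have done : ∀ c', c' ≤ K • M.aa → ∀ g ∈ M.H c', Sp G c g := fun c' hd g hg =>
      s.mono (s.base K fun V hV => s.bas.oc_mono _ _ _ _ (fun j _ => hd j) (hg V hV)) hK
    induction n with
    | zero =>
      intro c' r β _ h hn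
      refine done c' (by_contra fun hd => ?_)
      exact absurd (sum_nonneg fun j _ => sub_nonneg.2 (hl c' r β h hd j)) (not_le.2 hn)
    | succ n ih =>
      intro c' r β hc h hn g hg
      by_cases hd : c' ≤ K • M.aa
      · exact done c' hd g hg
      obtain ⟨i, -⟩ := not_forall.1 hd
      obtain ⟨o, -, ho⟩ := exists_min_image univ (fun j => (m - β j) / M.a j) ⟨i, mem_univ i⟩
      obtain ⟨t, ht⟩ : ∃ t, t = (m - β o) / M.a o := ⟨_, rfl⟩
      have t0 : 0 ≤ t := ht ▸ div_nonneg (sub_nonneg.2 (h.2.1 o).2) (ha o).le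
      have t1 : ∀ j, t * M.a j ≤ m - β j := fun j =>
        (le_div_iff₀ (ha j)).1 (ht ▸ ho j (mem_univ j))
      have t2 : t * M.a o = m - β o := by rw [ht, div_mul_cancel₀ _ (ha o).ne']
      have b1 : ∀ j, (β + t • M.q M.aa) j = β j + t * M.a j := fun j => by simp [Mod.aa]
      have h2 : Adj M A c' m (r - t) (β + t • M.q M.aa) := by
        refine ⟨h.1, fun j => ?_, by rw [h.2.2, sub_smul]; abel⟩
        have := h.2.1 j
        have := t1 j
        have := mul_nonneg t0 (ha j).le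
        rw [b1]
        constructor <;> linarith
      have bo : (β + t • M.q M.aa) o = m := by rw [b1, t2]; ring
      obtain ⟨u, hu, hgu⟩ := hR o c' m _ _ h2 bo g hg
      have h3 : g - u ∈ M.H c' := fun V hV => s.bas.oc_sub _ _ _ _ (hg V hV) (s.toH hu V hV)
      have h4 : g - u ∈ M.H (c' - M.e o) := by
        refine (s.sh _ _).2 ⟨((s.sh _ _).1 h3).1, fun j => ?_⟩
        rw [Pi.sub_apply, M.e_apply]
        split_ifs with e
        · rw [e, neg_sub]
          exact hgu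
        · rw [sub_zero]
          exact ((s.sh _ _).1 h3).2 j
      have h5 : Adj M A (c' - M.e o) m (r - t) (β + t • M.q M.aa - M.q (M.e o)) := by
        refine ⟨h.1, fun j => ?_, by rw [M.q_sub, h2.2.2]; abel⟩
        rw [Pi.sub_apply, M.q_apply, M.e_apply]
        split_ifs with e
        · rw [e, bo]
          constructor <;> push_cast <;> linarith
        · simpa using h2.2.1 j
      have h6 : c' - M.e o ≤ c := fun j => by
        have : c' j ≤ c j := hc j
        change c' j - M.e o j ≤ c j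
        rw [M.e_apply]
        split_ifs <;> omega
      have h7 : ∑ j, ((c' - M.e o) j - l j) < n := by
        have : ∑ j, ((c' - M.e o) j - l j) = ∑ j, (c' j - l j) - ∑ j, M.e o j := by
          rw [← sum_sub_distrib]
          exact sum_congr rfl fun j _ => by rw [Pi.sub_apply]; ring
        rw [this]
        simp only [M.e_apply, sum_ite_eq', mem_univ, if_true]
        push_cast at hn
        omega
      exact ((ih _ _ _ h6 h5 h7 _ h4).add (s.mono hu hc)).cast rfl (sub_add_cancel _ _)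
  exact key (∑ j, (c j - l j) + 1).toNat c r β le_rfl h (by omega)

end RBOX

open RBOX in
theorem rowBOX : OfBOX := by
  intro E hR f M hM A hA
  choose G0 h1 h2 h3 using fun o => hR f M hM o A hA
  have b := E.bas 3 f M hM
  have sh := E.h 3 f M hM
  obtain ⟨ν, y, hy⟩ := po_gen 3
  let G : Set ((M.J → ℤ) × KK 3) := (⋃ o, G0 o) ∪ (Set.range (fun j => (M.e j, 1)) ∪
    ({(-M.aa, ip 3 f), (M.aa, (ip 3 f)⁻¹)} ∪ Set.range fun l => (0, ip 3 (y l))))
  have s : Std f M G := by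
    refine ⟨hM, b, sh, ?_, fun j => Or.inr (Or.inl ⟨j, rfl⟩), Or.inr (Or.inr (Or.inl (Or.inl rfl))),
      Or.inr (Or.inr (Or.inl (Or.inr rfl))), fun p => hy p (Sp G 0) Sp.const
        (fun _ _ => Sp.add) fun _ l h =>
          (h.mul (Sp.gen (Or.inr (Or.inr (Or.inr ⟨l, rfl⟩))))).cast (add_zero _) rfl⟩
    rintro p (hp | ⟨j, rfl⟩ | (rfl | rfl) | ⟨l, rfl⟩)
    · obtain ⟨o, ho⟩ := Set.mem_iUnion.1 hp
      exact h2 o p ho
    · have := ip_mem sh b 1 (c := M.e j) fun i => by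
        rw [M.e_apply]
        split_ifs <;> simp
      rwa [map_one] at this
    · exact fun V _ => b.gen_oc _ _ _ (b.gen_f V)
    · intro V _
      have := b.gen_oc _ _ _ (b.gen_inv _ _ _ (b.gen_f V))
      rwa [neg_neg] at this
    · exact ip_mem sh b _ le_rfl
  refine ⟨G, (Set.finite_iUnion h1).union ((Set.finite_range _).union
    ((Set.toFinite _).union (Set.finite_range _))), s.mem, fun c m r β h g hg => ?_⟩
  have hp : ∀ n : ℕ, g ^ n ∈ M.H (n • c) := fun n V hV => b.oc_pow _ _ _ n (hg V hV)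
  rcases h.1.eq_or_lt with h0 | h0
  · have e : r.den • c = r.num • M.aa := M.q_inj (by
      have hβ : β = 0 := funext fun j => by
        have := h.2.1 j
        rw [← h0] at this
        exact le_antisymm this.2 (by simpa using this.1)
      rw [M.q_nsmul, M.q_zsmul, h.2.2, ← h0, hβ, zero_smul, zero_add, zero_add,
        ← Nat.cast_smul_eq_nsmul ℚ, smul_smul, mul_comm, Rat.mul_den_eq_num])
    exact ⟨r.den, r.pos, e ▸ s.base r.num (e ▸ hp r.den)⟩
  · obtain ⟨n, hn⟩ := exists_nat_ge (2 / m)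
    rw [div_le_iff₀ h0] at hn
    have n0 : 0 < n := Nat.pos_of_ne_zero fun e => by
      rw [e, Nat.cast_zero, zero_mul] at hn
      linarith
    have n1 : (0 : ℚ) ≤ n := Nat.cast_nonneg n
    refine ⟨n, n0, s.desc (A := A) (fun o c m r β h e g hg => (h3 o c m r β h e g hg).mono
      fun p hp => Or.inl (Set.mem_iUnion.2 ⟨o, hp⟩)) hn (r := n * r) (β := (n : ℚ) • β)
      ⟨by linarith, fun j => ?_, ?_⟩ _ (hp n)⟩
    · have a1 := mul_le_mul_of_nonneg_left (h.2.1 j).1 n1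
      have a2 := mul_le_mul_of_nonneg_left (h.2.1 j).2 n1
      rw [Pi.smul_apply, smul_eq_mul]
      constructor <;> linarith
    · rw [M.q_nsmul, h.2.2, ← Nat.cast_smul_eq_nsmul ℚ, smul_add, smul_add, smul_smul, smul_smul]

end Pool.Agent.MP_ee8c61_ag.N3.M3FG
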