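import Pool.Agent.MP_ee8c61_ag.N3FG.SpecB

/-!
The ample cone is open.
-/

namespace Pool.Agent.MP_ee8c61_ag.N3.M3FG

open Pool.Agent.MP_ee8c61_ag.M3 Pool.Agent.MP_ee8c61_ag.M3FG

set_option linter.unusedSectionVars false

variable [Base]

open M3 M3E

namespace ROPN

variable {N : ℕ} {M : Mod N}

theorem one (h : Aq M) (B e : M.J → ℚ) (hB : M.AmpQ B) :
    ∃ ε : ℚ, 0 < ε ∧ ∀ t : ℚ, |t| ≤ ε → M.AmpQ (B + t • e) := by
  obtain ⟨a, ha, h1⟩ := h.opn B e hB
  obtain ⟨b, hb, h2⟩ := h.opn B (-e) hB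
  refine ⟨min a b, lt_min ha hb, fun t ht => ?_⟩
  obtain ⟨h3, h4⟩ := abs_le.1 ht
  rcases le_total 0 t with h5 | h5
  · exact h1 t h5 (h4.trans (min_le_left _ _))
  · have h6 := h2 (-t) (neg_nonneg.2 h5) ((neg_le.1 h3).trans (min_le_right _ _))
    rwa [neg_smul_neg] at h6

theorem fin (h : Aq M) (s : Finset M.J) : ∀ A, M.AmpQ A → ∃ ε : ℚ, 0 < ε ∧
    ∀ u : M.J → ℚ, (∀ j, |u j| ≤ ε) → (∀ j, j ∉ s → u j = 0) → M.AmpQ (A + u) := by
  induction s using Finset.induction_on with
  | empty =>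
    refine fun A hA => ⟨1, one_pos, fun u _ hu => ?_⟩
    have e : u = 0 := funext fun j => hu j (Finset.notMem_empty j)
    rwa [e, add_zero]
  | insert j s _ ih =>
    intro A hA
    have hB := h.smul A (1 / 2) (by norm_num) hA
    obtain ⟨a, ha, h1⟩ := ih _ hB
    obtain ⟨b, hb, h2⟩ := one h _ (Pi.single j 1) hB
    refine ⟨min a b, lt_min ha hb, fun u hu hs => ?_⟩
    have h3 := h1 (Function.update u j 0) (fun i => by
      by_cases e : i = j
      · rw [e, Function.update_self, abs_zero]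
        exact ha.le
      · rw [Function.update_of_ne e]
        exact (hu i).trans (min_le_left _ _)) fun i hi => by
      by_cases e : i = j
      · rw [e, Function.update_self]
      · rw [Function.update_of_ne e]
        exact hs i fun h4 => (Finset.mem_insert.1 h4).elim e hi
    have h4 := h.add _ _ h3 (h.semi _ (h2 (u j) ((hu j).trans (min_le_right _ _))))
    have e : A + u = (1 / 2 : ℚ) • A + Function.update u j 0 +
        ((1 / 2 : ℚ) • A + u j • (Pi.single j 1 : M.J → ℚ)) := funext fun i => by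
      simp only [Pi.add_apply, Pi.smul_apply, smul_eq_mul]
      by_cases e : i = j
      · rw [e, Function.update_self, Pi.single_eq_same]
        ring
      · rw [Function.update_of_ne e, Pi.single_eq_of_ne e]
        ring
    rw [e]
    exact h4

end ROPN

theorem rowOPN : OfOPN := by
  intro hE N f M hM A hA
  obtain ⟨ε, h0, h⟩ := ROPN.fin (hE.aq N f M hM) Finset.univ A hA
  exact ⟨ε, h0, fun u hu => h u hu fun j hj => absurd (Finset.mem_univ j) hj⟩

end Pool.Agent.MP_ee8c61_ag.N3.M3FG
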