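import Pool.Agent.MP_ee8c61_ag.N3FG.SpecB
import Pool.Agent.MP_ee8c61_ag.N3CH.Spec

/-! Finite generation on boxes from the tasks. -/

namespace Pool.Agent.MP_ee8c61_ag.N3.M3FG

open Pool.Agent.MP_ee8c61_ag.M3 Pool.Agent.MP_ee8c61_ag.M3FG

set_option linter.unusedSectionVars false

variable [Base]

open M3 M3E

theorem sbox_of (h : StmtBOX) : M3CH.SBOX := by
  intro f M hM A hA
  obtain ⟨G, h1, h2, h3⟩ := h f M hM A hA
  refine ⟨h1.toFinset, fun p hp => h2 p (h1.mem_toFinset.1 hp), fun c m r be k1 k2 k3 g hg => ?_⟩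
  rw [h1.coe_toFinset]
  exact h3 c m r be ⟨k1, k2, k3⟩ g hg

theorem box_of (gor : StmtGOR) (poly : StmtPOLY) (fingr : StmtFINGR) (opn : OfOPN) (finm : OfFINM)
    (dio : OfDIO) (res : OfRES) (tr : OfTR) (resy : OfRESY) (box : OfBOX) (hE : EOut)
    (h4 : StmtS4) : M3CH.SBOX :=
  sbox_of (box hE (resy hE (finm hE fingr) (res hE gor poly h4 (dio hE (opn hE))) (tr hE (opn hE))))

end Pool.Agent.MP_ee8c61_ag.N3.M3FG
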