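import Pool.Agent.MP_ee8c61_ag.N3FG.SpecB

/-!
The restricted ring on a face of the box.
-/

namespace Pool.Agent.MP_ee8c61_ag.N3.M3FG

open Pool.Agent.MP_ee8c61_ag.M3 Pool.Agent.MP_ee8c61_ag.M3FG

set_option linter.unusedSectionVars false

variable [Base]

open M3 M3E

noncomputable section

namespace RRESY

variable {N : ℕ} {f : Po N} {M W : Mod N}

/-- The push-forward as a homomorphism. -/
def pfH (D : Dom W M) : (W.J → ℤ) →+ (M.J → ℤ) where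
  toFun := D.pf
  map_zero' := rfl
  map_add' _ _ := rfl

theorem triv (B : Bas f M) (o : M.J) : Triv (M.v o) := fun z => by
  exact (ov_iff.1 (B.ov_v o)).1 z

theorem poly_H (B : Bas f M) (p : Po N) : ip N p ∈ M.H 0 := fun V hV b _ => by
  rw [B.mon_zero, mul_one]
  exact hV p

theorem f_ne (hM : M.OK f) (B : Bas f M) : ip N f ≠ 0 := by
  obtain ⟨b, hb⟩ := hM.cov ⊤ fun _ => ValuationSubring.mem_top _
  exact left_ne_zero_of_mul (B.gen_f ⊤ b hb).1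

theorem fi_gen (B : Bas f M) (V : Vl N) : M.Gen V M.aa (ip N f)⁻¹ := by
  have := B.gen_inv V _ _ (B.gen_f V)
  rwa [neg_neg] at this

theorem fz_H (B : Bas f M) (ρ : ℤ) : ip N f ^ ρ ∈ M.H (-(ρ • M.aa)) := fun V _ => by
  refine B.gen_oc V _ _ ?_
  obtain ⟨n, rfl | rfl⟩ := Int.eq_nat_or_neg ρ
  · have := B.gen_pow V _ _ n (B.gen_f V)
    rwa [smul_neg, ← natCast_zsmul, ← zpow_natCast] at this
  · have := B.gen_pow V _ _ n (fi_gen B V)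
    rwa [← natCast_zsmul, inv_pow, ← zpow_natCast, ← zpow_neg, ← neg_neg ((n : ℤ) • M.aa),
      ← neg_smul] at this

theorem fz_Sp {G : Set ((M.J → ℤ) × KK N)} (h1 : (-M.aa, ip N f) ∈ G)
    (h2 : (M.aa, (ip N f)⁻¹) ∈ G) (ρ : ℤ) : Sp G (ρ • M.aa) (ip N f ^ (-ρ)) := by
  obtain ⟨n, rfl | rfl⟩ := Int.eq_nat_or_neg ρ
  · exact ((Sp.gen h2).pow n).cast (natCast_zsmul _ _).symm
      (by rw [inv_pow, zpow_neg, zpow_natCast])
  · exact ((Sp.gen h1).pow n).cast (by rw [smul_neg, neg_smul, natCast_zsmul])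
      (by rw [neg_neg, zpow_natCast])

end RRESY

open RRESY in
theorem rowRESY : OfRESY := fun E hF hR hT f M hM o A hA => by
  obtain ⟨W, D, μ, d, w, hW, hμ, hd, hw, hTR⟩ := hT f M hM o A hA
  obtain ⟨GW, fin, hGW, hRES⟩ := hR f W hW (D.e o) μ d w hμ hd hw
  have B := E.bas 3 f M hM
  have BW := E.bas 3 f W hW
  have C := E.dc 3 f W M D hW hM
  obtain ⟨G1, fin1, hG1, m1, m2, m3, m4⟩ : ∃ G1 : Set ((M.J → ℤ) × KK 3), G1.Finite ∧
      (∀ p ∈ G1, p.2 ∈ M.H p.1) ∧ (∀ p ∈ GW, (D.pf p.1, p.2) ∈ G1) ∧ (-M.aa, ip 3 f) ∈ G1 ∧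
      (M.aa, (ip 3 f)⁻¹) ∈ G1 ∧ ∀ l, (0, xx 3 l) ∈ G1 := by
    refine ⟨(fun p => (D.pf p.1, p.2)) '' GW ∪ ({(-M.aa, ip 3 f), (M.aa, (ip 3 f)⁻¹)} ∪
      Set.range fun l => (0, xx 3 l)),
      (fin.image _).union ((Set.toFinite _).union (Set.finite_range _)), ?_,
      fun p hp => Or.inl ⟨p, hp, rfl⟩, Or.inr (Or.inl (Or.inl rfl)),
      Or.inr (Or.inl (Or.inr rfl)), fun l => Or.inr (Or.inr ⟨l, rfl⟩)⟩
    rintro _ (⟨p, hp, rfl⟩ | (rfl | rfl) | ⟨l, rfl⟩)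
    · exact C.push _ (hGW p hp)
    · exact fun V _ => B.gen_oc V _ _ (B.gen_f V)
    · exact fun V _ => B.gen_oc V _ _ (fi_gen B V)
    · exact poly_H B (xp 3 l)
  have hv : ∀ c g, g ∈ M.H c → g ∈ (M.v o).F (-ev M o c) := fun c g h =>
    B.R_F o c g (B.H_R o c h)
  have hG2 : ∀ p ∈ G1 ∪ {0} ×ˢ M.R o 0, p.2 ∈ (M.v o).F (-ev M o p.1) := by
    rintro ⟨c, g⟩ (hp | ⟨rfl, hp⟩)
    · exact hv _ _ (hG1 _ hp)
    · exact B.R_F o 0 g hp
  obtain ⟨G', hG', fin', hS⟩ := hF 3 f M hM o M.J (ev M o) G1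
    {p | (∃ m r β, Adj M A p.1 m r β ∧ β o = m) ∧ p.2 ∈ M.H p.1} fin1
    (fun p hp => hv _ _ (hG1 p hp)) m4 (by
      rintro ⟨c, g⟩ ⟨⟨m, r, β, hA', hβ⟩, hg⟩
      refine ⟨hv _ _ hg, ?_⟩
      obtain ⟨s, ρ, n, b, hs, hB, hC, hle, hpf⟩ := hTR c m r β hA' hβ
      refine ⟨s, hs, ?_⟩
      have h1 : g ^ s * ip 3 f ^ ρ ∈ M.H (s • c - ρ • M.aa) := fun V hV => by
        rw [sub_eq_add_neg]
        exact B.oc_mul V _ _ _ _ (B.oc_pow V _ _ s (hg V hV)) (fz_H B ρ V hV)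
      rw [← C.H] at h1
      have h2 : g ^ s * ip 3 f ^ ρ ∈ W.H (n • FF W (D.e o) μ w + b) := fun V hV =>
        BW.oc_mono V _ _ _ (fun j _ => hle j) (h1 V hV)
      have h3 := hRES n b hB hC _ h2
      rw [D.v o] at h3
      have h4 := h3.map (δ' := ev M o) (G' := G1 ∪ {0} ×ˢ M.R o 0) (triv B o) (pfH D)
        (fun _ => rfl) hG2 (by
          rintro ⟨c', g'⟩ (hp | ⟨rfl, hp⟩)
          · exact SpM.of (Sp.gen (Or.inl (m1 _ hp)))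
          · refine SpM.of (Sp.gen (Or.inr ⟨rfl, ?_⟩))
            rw [← C.R, D.pb_zero]
            exact hp)
      have h5 := h4.mul (triv B o) hG2 (SpM.of (fz_Sp (Or.inl m2) (Or.inl m3) ρ))
      refine h5.cast ?_ ?_
      · exact (congrArg (· + ρ • M.aa) hpf).trans (sub_add_cancel _ _)
      · rw [mul_assoc, ← zpow_add₀ (f_ne hM B), add_neg_cancel, zpow_zero, mul_one])
  refine ⟨G1 ∪ G', fin1.union fin', ?_, fun c m r β hA' hβ g hg =>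
    hS (c, g) ⟨⟨m, r, β, hA', hβ⟩, hg⟩⟩
  rintro p (hp | hp)
  · exact hG1 p hp
  · exact (hG' hp).2

end

end Pool.Agent.MP_ee8c61_ag.N3.M3FG
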